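import Pool.Agent.Lib.MP_2739cb_lc.Final

/-!
Relative to a supercompact cardinal, it is consistent with ZFC that a strong limit singular
cardinal `lam` has ultrafilter number greater than its successor cardinal.
-/

namespace Pool.Agent.Results.MP_2739cb_lc.Main

open Pool.Agent.Lib.MP_2739cb_lc

universe u

theorem result (κ : Cardinal.{u}) (hκ : IsSupercompact κ) :
    ∃ (M : Type (u + 1)) (E : M → M → Prop), IsZFC E ∧ ∃ lam mu : M,
      IsInfCard E lam ∧ IsSingular E lam ∧ IsStrongLimit E lam ∧ IsSuccCard E mu lam ∧
        UltrafilterNumberExceeds E lam mu :=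
  main hκ

end Pool.Agent.Results.MP_2739cb_lc.Main
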